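import Pool.Agent.H37.UMD.Stmts

/-!
CTR: the control lemma.
-/

set_option autoImplicit false

namespace Pool.UMD

lemma CTR_alg (P Q R α β τ : ℝ) (hPQ : P + Q = τ) (hP0 : 0 ≤ P) (hQ0 : 0 ≤ Q)
    (hR : R ^ 2 ≤ P * Q) (hαβ : α ^ 2 + β ^ 2 = 1) (hα : 1 - 1 / 1000 ≤ α ^ 2)
    (hP : τ - 1 / 20 ≤ P) (hτ : τ ≤ 6) :
    2 * (τ - 3 / 4 * (α ^ 2 * P + 2 * α * β * R + β ^ 2 * Q)) ≤ 6 := by
  have h1 : -(α ^ 2 * P / 10 + 10 * (β ^ 2 * Q)) ≤ 2 * α * β * R := by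
    have h2 : |2 * α * β * R| ≤ α ^ 2 * P / 10 + 10 * (β ^ 2 * Q) := by
      apply abs_le_of_sq_le_sq _ (by positivity)
      have h3 : (2 * α * β * R) ^ 2 = 4 * α ^ 2 * β ^ 2 * R ^ 2 := by ring
      have h4 : 4 * α ^ 2 * β ^ 2 * R ^ 2 ≤ 4 * α ^ 2 * β ^ 2 * (P * Q) := by
        apply mul_le_mul_of_nonneg_left hR; positivity
      have h7 := four_mul_le_sq_add (α ^ 2 * P / 10) (10 * (β ^ 2 * Q))
      have h8 : 4 * (α ^ 2 * P / 10) * (10 * (β ^ 2 * Q)) = 4 * α ^ 2 * β ^ 2 * (P * Q) := by ring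
      rw [h3]
      linarith
    exact (abs_le.mp h2).1
  have hβ : β ^ 2 ≤ 1 / 1000 := by linarith
  have hQ : Q ≤ 1 / 20 := by linarith
  have h5 : β ^ 2 * Q ≤ 1 / 1000 * (1 / 20) := by gcongr
  have h5' : 0 ≤ β ^ 2 * Q := by positivity
  have h6 : (1 - 1 / 1000) * P ≤ α ^ 2 * P := by gcongr
  linarith

lemma CTR_core (D : Finset (ℝ × ℝ)) (hD : Net D) (L a b c d x1 x2 : ℝ) (hL : 16 ≤ L)
    (hdet : (a * d - b * c) ^ 2 = 1 / L) (hfr : a ^ 2 + b ^ 2 + c ^ 2 + d ^ 2 ≤ 6)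
    (hT : 20 / L * (x1 ^ 2 + x2 ^ 2) < (x1 * a + x2 * c) ^ 2 + (x1 * b + x2 * d) ^ 2) :
    ∃ e ∈ D,
      2 * ((a ^ 2 + b ^ 2 + c ^ 2 + d ^ 2)
        - 3 / 4 * ((a * e.1 + b * e.2) ^ 2 + (c * e.1 + d * e.2) ^ 2)) ≤ 6 ∧
      2 * (((x1 * a + x2 * c) ^ 2 + (x1 * b + x2 * d) ^ 2)
        - 3 / 4 * ((x1 * a + x2 * c) * e.1 + (x1 * b + x2 * d) * e.2) ^ 2)
        ≤ 3 / 5 * ((x1 * a + x2 * c) ^ 2 + (x1 * b + x2 * d) ^ 2) := by
  have hL0 : 0 < L := by linarith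
  set y1 := x1 * a + x2 * c with hy1
  set y2 := x1 * b + x2 * d with hy2
  set T := y1 ^ 2 + y2 ^ 2 with hTdef
  have hTpos : 0 < T := by
    have : 0 ≤ 20 / L * (x1 ^ 2 + x2 ^ 2) := by positivity
    linarith
  set n := √T with hn
  have hn0 : 0 < n := Real.sqrt_pos.mpr hTpos
  have hnsq : n ^ 2 = T := Real.sq_sqrt hTpos.le
  set u1 := y1 / n with hu1
  set u2 := y2 / n with hu2
  have hyu1 : y1 = n * u1 := by rw [hu1]; field_simp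
  have hyu2 : y2 = n * u2 := by rw [hu2]; field_simp
  have huu : u1 ^ 2 + u2 ^ 2 = 1 := by
    have h1 : n ^ 2 * (u1 ^ 2 + u2 ^ 2) = n ^ 2 * 1 := by
      rw [mul_one]
      calc n ^ 2 * (u1 ^ 2 + u2 ^ 2) = (n * u1) ^ 2 + (n * u2) ^ 2 := by ring
        _ = T := by rw [← hyu1, ← hyu2]
        _ = n ^ 2 := hnsq.symm
    exact mul_left_cancel₀ (by positivity) h1
  obtain ⟨e, heD, he⟩ := hD.2 (u1, u2) huu
  have hee := hD.1 e heD
  simp only [dot] at he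
  refine ⟨e, heD, ?_, ?_⟩
  · -- coordinates of e in the basis u, u⊥
    set α := u1 * e.1 + u2 * e.2 with hα
    set β := -u2 * e.1 + u1 * e.2 with hβ
    have hαβ : α ^ 2 + β ^ 2 = 1 := by
      have : α ^ 2 + β ^ 2 = (u1 ^ 2 + u2 ^ 2) * (e.1 ^ 2 + e.2 ^ 2) := by
        rw [hα, hβ]; ring
      rw [this, huu, hee]; ring
    have he1 : e.1 = α * u1 - β * u2 := by
      have : α * u1 - β * u2 = (u1 ^ 2 + u2 ^ 2) * e.1 := by rw [hα, hβ]; ring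
      rw [this, huu]; ring
    have he2 : e.2 = α * u2 + β * u1 := by
      have : α * u2 + β * u1 = (u1 ^ 2 + u2 ^ 2) * e.2 := by rw [hα, hβ]; ring
      rw [this, huu]; ring
    set P := (a * u1 + b * u2) ^ 2 + (c * u1 + d * u2) ^ 2 with hP
    set Q := (-a * u2 + b * u1) ^ 2 + (-c * u2 + d * u1) ^ 2 with hQ
    set R := (a * u1 + b * u2) * (-a * u2 + b * u1)
      + (c * u1 + d * u2) * (-c * u2 + d * u1) with hR
    have hPQ : P + Q = a ^ 2 + b ^ 2 + c ^ 2 + d ^ 2 := by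
      have : P + Q = (u1 ^ 2 + u2 ^ 2) * (a ^ 2 + b ^ 2 + c ^ 2 + d ^ 2) := by
        rw [hP, hQ]; ring
      rw [this, huu]; ring
    have hRR : R ^ 2 ≤ P * Q := by
      have : P * Q - R ^ 2 = ((a * u1 + b * u2) * (-c * u2 + d * u1)
        - (c * u1 + d * u2) * (-a * u2 + b * u1)) ^ 2 := by rw [hP, hQ, hR]; ring
      have h9 := sq_nonneg ((a * u1 + b * u2) * (-c * u2 + d * u1)
        - (c * u1 + d * u2) * (-a * u2 + b * u1))
      rw [← this] at h9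
      clear_value P Q R
      linarith
    -- Cayley-Hamilton
    have hCH : T * P = (a ^ 2 + b ^ 2 + c ^ 2 + d ^ 2) * T - 1 / L * (x1 ^ 2 + x2 ^ 2) := by
      have h1 : T * P = (a * y1 + b * y2) ^ 2 + (c * y1 + d * y2) ^ 2 := by
        rw [hP, ← hnsq, hyu1, hyu2]; ring
      rw [h1, ← hdet, hTdef, hy1, hy2]; ring
    have hPge : (a ^ 2 + b ^ 2 + c ^ 2 + d ^ 2) - 1 / 20 ≤ P := by
      have h1 : 1 / L * (x1 ^ 2 + x2 ^ 2) ≤ T / 20 := by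
        have : 20 / L * (x1 ^ 2 + x2 ^ 2) = 20 * (1 / L * (x1 ^ 2 + x2 ^ 2)) := by ring
        rw [this] at hT
        linarith
      have h2 : T * ((a ^ 2 + b ^ 2 + c ^ 2 + d ^ 2) - 1 / 20) ≤ T * P := by
        rw [hCH]; clear_value T P; linarith
      exact le_of_mul_le_mul_left h2 hTpos
    have hexp : (a * e.1 + b * e.2) ^ 2 + (c * e.1 + d * e.2) ^ 2
        = α ^ 2 * P + 2 * α * β * R + β ^ 2 * Q := by
      rw [he1, he2, hP, hQ, hR]; ring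
    rw [hexp]
    exact CTR_alg P Q R α β _ hPQ (by positivity) (by positivity) hRR hαβ he hPge hfr
  · have h1 : (y1 * e.1 + y2 * e.2) ^ 2 = T * (u1 * e.1 + u2 * e.2) ^ 2 := by
      rw [← hnsq, hyu1, hyu2]; ring
    rw [h1]
    have h2 : T * (1 - 1 / 1000) ≤ T * (u1 * e.1 + u2 * e.2) ^ 2 :=
      mul_le_mul_of_nonneg_left he hTpos.le
    generalize T * (u1 * e.1 + u2 * e.2) ^ 2 = w at h2
    clear_value T
    linarith

lemma CTR_any (D : Finset (ℝ × ℝ)) (hD : Net D) (L a b c d : ℝ) (hL : 16 ≤ L)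
    (hdet : (a * d - b * c) ^ 2 = 1 / L) (hfr : a ^ 2 + b ^ 2 + c ^ 2 + d ^ 2 ≤ 6) :
    ∃ e ∈ D,
      2 * ((a ^ 2 + b ^ 2 + c ^ 2 + d ^ 2)
        - 3 / 4 * ((a * e.1 + b * e.2) ^ 2 + (c * e.1 + d * e.2) ^ 2)) ≤ 6 := by
  have hL0 : 0 < L := by linarith
  have h20 : 20 / L ≤ 5 / 4 := by rw [div_le_iff₀ hL0]; linarith
  rcases le_or_gt (a ^ 2 + b ^ 2 + c ^ 2 + d ^ 2) 3 with h3 | h3
  · obtain ⟨e, heD, _⟩ := hD.2 (1, 0) (by norm_num)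
    refine ⟨e, heD, ?_⟩
    nlinarith [sq_nonneg (a * e.1 + b * e.2), sq_nonneg (c * e.1 + d * e.2)]
  · rcases le_or_gt (b ^ 2 + d ^ 2) (a ^ 2 + c ^ 2) with h4 | h4
    · obtain ⟨e, heD, h, _⟩ := CTR_core D hD L a b c d a c hL hdet hfr (by
        have h5 : 3 / 2 < a ^ 2 + c ^ 2 := by linarith
        have h6 : 20 / L * (a ^ 2 + c ^ 2) ≤ 5 / 4 * (a ^ 2 + c ^ 2) := by gcongr
        have h7 : (a * a + c * c) ^ 2 = (a ^ 2 + c ^ 2) * (a ^ 2 + c ^ 2) := by ring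
        have h8 := sq_nonneg (a * b + c * d)
        rw [h7]
        generalize a ^ 2 + c ^ 2 = v at *
        nlinarith)
      exact ⟨e, heD, h⟩
    · obtain ⟨e, heD, h, _⟩ := CTR_core D hD L a b c d b d hL hdet hfr (by
        have h5 : 3 / 2 < b ^ 2 + d ^ 2 := by linarith
        have h6 : 20 / L * (b ^ 2 + d ^ 2) ≤ 5 / 4 * (b ^ 2 + d ^ 2) := by gcongr
        have h7 : (b * b + d * d) ^ 2 = (b ^ 2 + d ^ 2) * (b ^ 2 + d ^ 2) := by ring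
        have h8 := sq_nonneg (b * a + d * c)
        rw [h7]
        generalize b ^ 2 + d ^ 2 = v at *
        nlinarith)
      exact ⟨e, heD, h⟩

theorem sCtr : SCtr := by
  intro β₁ β₂ hβ₁ hβ₂ hβ D hD L A p hL hdet hτ
  have hL0 : 0 < L := by linarith
  set κ1 := L ^ (-β₁) with hκ1
  set κ2 := L ^ (-β₂) with hκ2
  set ν1 := L ^ β₁ with hν1
  set ν2 := L ^ β₂ with hν2
  have hκν1 : κ1 * ν1 = 1 := by
    rw [hκ1, hν1, ← Real.rpow_add hL0]; simp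
  have hκν2 : κ2 * ν2 = 1 := by
    rw [hκ2, hν2, ← Real.rpow_add hL0]; simp
  have hκκ : (κ1 * κ2) ^ 2 = 1 / L := by
    rw [hκ1, hκ2, ← Real.rpow_add hL0, ← Real.rpow_natCast, ← Real.rpow_mul hL0.le]
    have : (-β₁ + -β₂) * ((2 : ℕ) : ℝ) = -1 := by push_cast; linarith
    rw [this, Real.rpow_neg_one]; simp
  set s := √A.det with hs
  have hs0 : 0 < s := Real.sqrt_pos.mpr hdet
  have hssq : s ^ 2 = A.det := Real.sq_sqrt hdet.le
  set a := κ1 * A.a / s with ha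
  set b := κ1 * A.b / s with hb
  set c := κ2 * A.c / s with hc
  set d := κ2 * A.d / s with hd
  set x1 := ν1 * p.1 with hx1
  set x2 := ν2 * p.2 with hx2
  have hsinv : s * s = A.det := by rw [← hssq]; ring
  have hfrτ : a ^ 2 + b ^ 2 + c ^ 2 + d ^ 2 = tau β₁ β₂ L A := by
    rw [ha, hb, hc, hd]; unfold tau
    rw [← hκ1, ← hκ2, ← hssq]
    field_simp
    ring
  have hdet' : (a * d - b * c) ^ 2 = 1 / L := by
    have h1 : a * d - b * c = κ1 * κ2 := by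
      have h2 : a * d - b * c = κ1 * κ2 * (A.a * A.d - A.b * A.c) / s ^ 2 := by
        rw [ha, hb, hc, hd]; field_simp
      rw [h2, hssq]
      have h3 : A.a * A.d - A.b * A.c = A.det := rfl
      rw [h3]; field_simp
    rw [h1, hκκ]
  have hy1 : x1 * a + x2 * c = (A.tr p).1 / s := by
    have h1 : (A.tr p).1 = A.a * p.1 + A.c * p.2 := rfl
    rw [h1, ha, hc, hx1, hx2]
    have h2 : ν1 * p.1 * (κ1 * A.a / s) + ν2 * p.2 * (κ2 * A.c / s)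
      = ((κ1 * ν1) * (A.a * p.1) + (κ2 * ν2) * (A.c * p.2)) / s := by ring
    rw [h2, hκν1, hκν2]; ring
  have hy2 : x1 * b + x2 * d = (A.tr p).2 / s := by
    have h1 : (A.tr p).2 = A.b * p.1 + A.d * p.2 := rfl
    rw [h1, hb, hd, hx1, hx2]
    have h2 : ν1 * p.1 * (κ1 * A.b / s) + ν2 * p.2 * (κ2 * A.d / s)
      = ((κ1 * ν1) * (A.b * p.1) + (κ2 * ν2) * (A.d * p.2)) / s := by ring
    rw [h2, hκν1, hκν2]; ring
  have hTA : (x1 * a + x2 * c) ^ 2 + (x1 * b + x2 * d) ^ 2 = TA A p := by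
    rw [hy1, hy2]; unfold TA nm
    rw [Real.sq_sqrt (by positivity), ← hssq]
    field_simp
  have hNL : x1 ^ 2 + x2 ^ 2 = NL β₁ β₂ L p ^ 2 := by
    unfold NL nm
    rw [Real.sq_sqrt (by positivity)]
  have hfr : a ^ 2 + b ^ 2 + c ^ 2 + d ^ 2 ≤ 6 := by rw [hfrτ]; exact hτ
  -- the child
  have hcdet : ∀ e : ℝ × ℝ, e.1 ^ 2 + e.2 ^ 2 = 1 → (A.con e).det = s ^ 2 / 2 := by
    intro e he
    rw [hssq]
    unfold Mat.con Mat.det
    simp only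
    have h1 : e.2 ^ 2 = 1 - e.1 ^ 2 := by linarith
    have h2 : (A.a - (A.a * e.1 + A.b * e.2) / 2 * e.1) * (A.d - (A.c * e.1 + A.d * e.2) / 2 * e.2)
      - (A.b - (A.a * e.1 + A.b * e.2) / 2 * e.2) * (A.c - (A.c * e.1 + A.d * e.2) / 2 * e.1)
      = (A.a * A.d - A.b * A.c) * (1 - (e.1 ^ 2 + e.2 ^ 2) / 2) := by ring
    rw [h2, he]; ring
  have hctau : ∀ e : ℝ × ℝ, e.1 ^ 2 + e.2 ^ 2 = 1 → tau β₁ β₂ L (A.con e)
      = 2 * ((a ^ 2 + b ^ 2 + c ^ 2 + d ^ 2)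
        - 3 / 4 * ((a * e.1 + b * e.2) ^ 2 + (c * e.1 + d * e.2) ^ 2)) := by
    intro e he
    unfold tau
    rw [hcdet e he, ← hκ1, ← hκ2]
    have h1 : (A.con e).a ^ 2 + (A.con e).b ^ 2
        = A.a ^ 2 + A.b ^ 2 - 3 / 4 * (A.a * e.1 + A.b * e.2) ^ 2 := by
      unfold Mat.con; simp only
      have : (A.a - (A.a * e.1 + A.b * e.2) / 2 * e.1) ^ 2
          + (A.b - (A.a * e.1 + A.b * e.2) / 2 * e.2) ^ 2
        = A.a ^ 2 + A.b ^ 2 - (A.a * e.1 + A.b * e.2) ^ 2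
          + (A.a * e.1 + A.b * e.2) ^ 2 / 4 * (e.1 ^ 2 + e.2 ^ 2) := by ring
      rw [this, he]; ring
    have h2 : (A.con e).c ^ 2 + (A.con e).d ^ 2
        = A.c ^ 2 + A.d ^ 2 - 3 / 4 * (A.c * e.1 + A.d * e.2) ^ 2 := by
      unfold Mat.con; simp only
      have : (A.c - (A.c * e.1 + A.d * e.2) / 2 * e.1) ^ 2
          + (A.d - (A.c * e.1 + A.d * e.2) / 2 * e.2) ^ 2
        = A.c ^ 2 + A.d ^ 2 - (A.c * e.1 + A.d * e.2) ^ 2
          + (A.c * e.1 + A.d * e.2) ^ 2 / 4 * (e.1 ^ 2 + e.2 ^ 2) := by ring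
      rw [this, he]; ring
    rw [h1, h2, ha, hb, hc, hd]
    field_simp
    ring
  have hcTA : ∀ e : ℝ × ℝ, e.1 ^ 2 + e.2 ^ 2 = 1 → TA (A.con e) p
      = 2 * (((x1 * a + x2 * c) ^ 2 + (x1 * b + x2 * d) ^ 2)
        - 3 / 4 * ((x1 * a + x2 * c) * e.1 + (x1 * b + x2 * d) * e.2) ^ 2) := by
    intro e he
    rw [hy1, hy2]
    unfold TA nm
    rw [hcdet e he, Real.sq_sqrt (by positivity)]
    have h1 : ((A.con e).tr p).1 = (A.tr p).1
        - ((A.tr p).1 * e.1 + (A.tr p).2 * e.2) / 2 * e.1 := by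
      unfold Mat.con Mat.tr; simp only; ring
    have h2 : ((A.con e).tr p).2 = (A.tr p).2
        - ((A.tr p).1 * e.1 + (A.tr p).2 * e.2) / 2 * e.2 := by
      unfold Mat.con Mat.tr; simp only; ring
    rw [h1, h2]
    have h3 : ((A.tr p).1 - ((A.tr p).1 * e.1 + (A.tr p).2 * e.2) / 2 * e.1) ^ 2
        + ((A.tr p).2 - ((A.tr p).1 * e.1 + (A.tr p).2 * e.2) / 2 * e.2) ^ 2
        = (A.tr p).1 ^ 2 + (A.tr p).2 ^ 2 - ((A.tr p).1 * e.1 + (A.tr p).2 * e.2) ^ 2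
          + ((A.tr p).1 * e.1 + (A.tr p).2 * e.2) ^ 2 / 4 * (e.1 ^ 2 + e.2 ^ 2) := by ring
    rw [h3, he]
    field_simp
    ring
  rcases le_or_gt (TA A p) (20 / L * NL β₁ β₂ L p ^ 2) with h | h
  · obtain ⟨e, heD, h1⟩ := CTR_any D hD L a b c d hL hdet' hfr
    have he := hD.1 e heD
    refine ⟨e, heD, ?_, ?_, ?_⟩
    · rw [hctau e he]; exact h1
    · intro _
      rw [hcTA e he, ← hTA]
      nlinarith [sq_nonneg ((x1 * a + x2 * c) * e.1 + (x1 * b + x2 * d) * e.2)]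
    · intro h2; exact absurd h2 (not_lt.mpr h)
  · obtain ⟨e, heD, h1, h2⟩ := CTR_core D hD L a b c d x1 x2 hL hdet' hfr (by
      rw [hNL, hTA]; exact h)
    have he := hD.1 e heD
    refine ⟨e, heD, ?_, ?_, ?_⟩
    · rw [hctau e he]; exact h1
    · intro h3; exact absurd h (not_lt.mpr h3)
    · intro _
      rw [hcTA e he, ← hTA]
      exact h2

end Pool.UMD
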