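import Pool.Agent.H37.UMD.Stmts

/-!
SWI: changing the level from `L` to `2L`.
-/

set_option autoImplicit false

open MeasureTheory ProbabilityTheory

namespace Pool.UMD

lemma SWI_nn {h : ℝ × ℝ → ℝ} (hh : Continuous h) {G1 G2 : ℝ × ℝ → ℝ} {T : ℝ} (h1 : Bd G1 T)
    (h2 : Bd G2 T) (a : ℝ × ℝ) (A : Mat) :
    Integrable (fun z => h (G1 (a + A.ap z), G2 (a + A.ap z))) g2 := by
  obtain ⟨C, hC⟩ := (isCompact_Icc (a := ((-T, -T) : ℝ × ℝ)) (b := (T, T))).exists_bound_of_continuousOn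
    hh.continuousOn
  have hmeas : Measurable (fun z : ℝ × ℝ => a + A.ap z) := by
    unfold Mat.ap
    fun_prop
  have hm : Measurable (fun z => h (G1 (a + A.ap z), G2 (a + A.ap z))) := by
    apply hh.measurable.comp
    exact (h1.1.comp hmeas).prodMk (h2.1.comp hmeas)
  apply Integrable.of_bound hm.aestronglyMeasurable C
  filter_upwards with z
  apply hC
  have e1 := abs_le.mp (h1.2 (a + A.ap z))
  have e2 := abs_le.mp (h2.2 (a + A.ap z))
  exact ⟨⟨e1.1, e2.1⟩, ⟨e1.2, e2.2⟩⟩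

lemma SWI_exp (L : ℝ) (hL : 16 ≤ L) : √(2 * L) * (2 * L + 1) ≤ Real.exp (L / 2) := by
  have h1 : √(2 * L) ≤ L / 2 := by
    rw [Real.sqrt_le_left (by linarith)]
    nlinarith
  have h2 : (L / 2) ^ 5 / (Nat.factorial 5 : ℝ) ≤ Real.exp (L / 2) :=
    Real.pow_div_factorial_le_exp (L / 2) (by linarith) 5
  have h3 : (L / 2) * (2 * L + 1) ≤ (L / 2) ^ 5 / (Nat.factorial 5 : ℝ) := by
    have : (Nat.factorial 5 : ℝ) = 120 := by norm_num [Nat.factorial]
    rw [this, le_div_iff₀ (by norm_num)]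
    set x := L / 2 with hx
    have hx8 : 8 ≤ x := by rw [hx]; linarith
    have hLx : 2 * L + 1 = 4 * x + 1 := by rw [hx]; ring
    rw [hLx]
    have h4 : (512 : ℝ) ≤ x ^ 3 := by
      calc (512 : ℝ) = 8 ^ 3 := by norm_num
        _ ≤ x ^ 3 := by gcongr
    have h5 : 512 * x ≤ x ^ 3 * x := by
      apply mul_le_mul_of_nonneg_right h4; linarith
    have h6 : (4 * x + 1) * 120 ≤ x ^ 3 * x := by linarith
    have h7 : x * ((4 * x + 1) * 120) ≤ x * (x ^ 3 * x) :=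
      mul_le_mul_of_nonneg_left h6 (by linarith)
    calc x * (4 * x + 1) * 120 = x * ((4 * x + 1) * 120) := by ring
      _ ≤ x * (x ^ 3 * x) := h7
      _ = x ^ 5 := by ring
  calc √(2 * L) * (2 * L + 1) ≤ (L / 2) * (2 * L + 1) := by
        apply mul_le_mul_of_nonneg_right h1; linarith
    _ ≤ _ := h3.trans h2

/-- `y (c - log y)` is monotone as long as `log y ≤ c - 1` -/
lemma SWI_mono (c y y' : ℝ) (hy' : 0 < y') (hyy : y' ≤ y) (hc : Real.log y ≤ c - 1) :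
    y' * (c - Real.log y') ≤ y * (c - Real.log y) := by
  have hy : 0 < y := lt_of_lt_of_le hy' hyy
  have h1 : Real.log (y / y') ≤ y / y' - 1 := Real.log_le_sub_one_of_pos (by positivity)
  rw [Real.log_div hy.ne' hy'.ne'] at h1
  have h2 : y' * (Real.log y - Real.log y') ≤ y' * (y / y' - 1) :=
    mul_le_mul_of_nonneg_left h1 hy'.le
  have h3 : y' * (y / y' - 1) = y - y' := by field_simp
  rw [h3] at h2
  have h4 : 0 ≤ (y - y') * (c - 1 - Real.log y) := by
    apply mul_nonneg <;> linarith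
  nlinarith

lemma SWI_FL (β₁ β₂ L : ℝ) (A : Mat) (p : ℝ × ℝ) (hdet : 0 < A.det)
    (hT : TA A p ≤ 6 * NL β₁ β₂ L p ^ 2) :
    0 ≤ FL β₁ β₂ L A p ∧ FL β₁ β₂ L A p ≤ 6 * NL β₁ β₂ L p := by
  have hN : 0 ≤ NL β₁ β₂ L p := Real.sqrt_nonneg _
  have hTA : 0 ≤ TA A p := by
    unfold TA; positivity
  constructor
  · unfold FL; positivity
  · unfold FL
    rcases eq_or_lt_of_le hN with h0 | h0
    · rw [← h0]; simp
    · rw [div_le_iff₀ h0]
      have h1 : (max (√(TA A p) - √(40 / L) * NL β₁ β₂ L p) 0) ^ 2 ≤ (√(TA A p)) ^ 2 := by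
        apply pow_le_pow_left₀ (le_max_right _ _)
        apply max_le
        · have : 0 ≤ √(40 / L) * NL β₁ β₂ L p := by positivity
          linarith
        · positivity
      rw [Real.sq_sqrt hTA] at h1
      calc _ ≤ _ := h1
        _ ≤ _ := hT
        _ = _ := by ring

theorem sSwi (hNlp : SNlp) (hRho : SRho) (hThp : SThp) : SSwi := by
  intro β₁ β₂ Ca Cb Ce K D Λ Cv hC W G1 G2 T hG1 hG2 k L a A hL hdet hτ hZ hexp hlog
  obtain ⟨n1, n2, n3, n4, n5, n6, n7⟩ := hNlp β₁ β₂ hC.p1 hC.p2 hC.ps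
  obtain ⟨t1, t2, t3, t4⟩ := hThp β₁ β₂ hC.p1 hC.p2 hC.ps
  have hL1 : (1 : ℝ) ≤ L := by linarith
  have hL0 : (0 : ℝ) < L := by linarith
  have h2L1 : (1 : ℝ) ≤ 2 * L := by linarith
  -- integrability
  have i1 : Integrable (fun z => th β₁ β₂ L (G1 (a + A.ap z), G2 (a + A.ap z))) g2 :=
    SWI_nn (t1 L hL1) hG1 hG2 a A
  have i2 : Integrable (fun z => th β₁ β₂ (2 * L) (G1 (a + A.ap z), G2 (a + A.ap z))) g2 :=
    SWI_nn (t1 (2 * L) h2L1) hG1 hG2 a A
  have hnmc : Continuous (fun v : ℝ × ℝ => 1 + nm v) := by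
    unfold nm; fun_prop
  have i3 : Integrable (fun z => 1 + nm (G1 (a + A.ap z), G2 (a + A.ap z))) g2 :=
    SWI_nn hnmc hG1 hG2 a A
  -- phi_L ≥ exp L
  set φ := ph β₁ β₂ G1 G2 L a A with hφ
  set φ' := ph β₁ β₂ G1 G2 (2 * L) a A with hφ'
  have hφL : Real.exp L < φ := by
    refine lt_of_lt_of_le hexp ?_
    rw [hφ]; unfold ph mu
    apply integral_mono i3 i1
    intro z
    have h1 := t2 L (G1 (a + A.ap z), G2 (a + A.ap z)) hL1
    have h2 := (n1 L (G1 (a + A.ap z), G2 (a + A.ap z)) hL1).1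
    simp only
    linarith
  have hφpos : 0 < φ := lt_trans (Real.exp_pos _) hφL
  have hφ'le : φ' ≤ φ + √(2 * L) * Real.exp (L / 2) := by
    have h1 : φ + √(2 * L) * Real.exp (L / 2)
        = ∫ z, (th β₁ β₂ L (G1 (a + A.ap z), G2 (a + A.ap z)) + √(2 * L) * Real.exp (L / 2)) ∂g2 := by
      rw [integral_add i1 (integrable_const _)]
      simp [hφ, ph, mu]
    rw [h1, hφ']; unfold ph mu
    apply integral_mono i2 (i1.add (integrable_const _))
    intro z
    exact t3 L _ hL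
  have hφ'pos : 0 < φ' := by
    have h1 : (1 : ℝ) ≤ φ' := by
      have h2 : (1 : ℝ) = ∫ _z : ℝ × ℝ, (1 : ℝ) ∂g2 := by simp
      rw [h2, hφ']; unfold ph mu
      apply integral_mono (integrable_const _) i2
      intro z
      have h3 := t2 (2 * L) (G1 (a + A.ap z), G2 (a + A.ap z)) h2L1
      have h4 : 0 ≤ NL β₁ β₂ (2 * L) (G1 (a + A.ap z), G2 (a + A.ap z)) := Real.sqrt_nonneg _
      simp only
      linarith
    linarith
  -- monotonicity of the corrected means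
  have hΦ : (1 + 1 / (2 * L)) * φ' ≤ (1 + 1 / L) * φ := by
    have h1 : √(2 * L) * (2 * L + 1) * Real.exp (L / 2) ≤ φ := by
      calc √(2 * L) * (2 * L + 1) * Real.exp (L / 2)
          ≤ Real.exp (L / 2) * Real.exp (L / 2) := by
            apply mul_le_mul_of_nonneg_right (SWI_exp L hL) (Real.exp_pos _).le
        _ = Real.exp L := by rw [← Real.exp_add]; congr 1; ring
        _ ≤ φ := hφL.le
    have h2 : (1 + 1 / (2 * L)) * φ' ≤ (1 + 1 / (2 * L)) * (φ + √(2 * L) * Real.exp (L / 2)) := by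
      apply mul_le_mul_of_nonneg_left hφ'le; positivity
    have h3 : (1 + 1 / (2 * L)) * (√(2 * L) * Real.exp (L / 2))
        = 1 / (2 * L) * (√(2 * L) * (2 * L + 1) * Real.exp (L / 2)) := by
      field_simp
    have h4 : 1 / (2 * L) * (√(2 * L) * (2 * L + 1) * Real.exp (L / 2)) ≤ 1 / (2 * L) * φ := by
      apply mul_le_mul_of_nonneg_left h1; positivity
    have h5 : (1 + 1 / L) * φ = (1 + 1 / (2 * L)) * φ + 1 / (2 * L) * φ := by
      field_simp; ring
    rw [h5]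
    calc _ ≤ _ := h2
      _ = (1 + 1 / (2 * L)) * φ + (1 + 1 / (2 * L)) * (√(2 * L) * Real.exp (L / 2)) := by ring
      _ ≤ _ := by rw [h3]; linarith
  have hΦpos : 0 < (1 + 1 / (2 * L)) * φ' := by positivity
  -- the noise part
  have hK : (10 : ℝ) ≤ K := hC.k
  have hK0 : 0 < √K := Real.sqrt_pos.mpr (by linarith)
  have hnoise : Ce / √K * ((1 + 1 / (2 * L)) * φ') *
      (3 * K + 6 * k - Real.log ((1 + 1 / (2 * L)) * φ') + Real.log (Zk D Λ Cv W k a A))
      ≤ Ce / √K * ((1 + 1 / L) * φ) *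
      (3 * K + 6 * k - Real.log ((1 + 1 / L) * φ) + Real.log (Zk D Λ Cv W k a A)) := by
    have hlz : 0 ≤ Real.log (Zk D Λ Cv W k a A) := Real.log_nonneg hZ
    have hk : (0 : ℝ) ≤ k := Nat.cast_nonneg k
    have h1 := SWI_mono (3 * K + 6 * k + Real.log (Zk D Λ Cv W k a A)) ((1 + 1 / L) * φ)
      ((1 + 1 / (2 * L)) * φ') hΦpos hΦ (by linarith)
    have h2 : 0 ≤ Ce / √K := by have := hC.ce; positivity
    calc _ = Ce / √K * (((1 + 1 / (2 * L)) * φ') *
        (3 * K + 6 * k + Real.log (Zk D Λ Cv W k a A) - Real.log ((1 + 1 / (2 * L)) * φ'))) := by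
          ring
      _ ≤ Ce / √K * (((1 + 1 / L) * φ) *
        (3 * K + 6 * k + Real.log (Zk D Λ Cv W k a A) - Real.log ((1 + 1 / L) * φ))) :=
          mul_le_mul_of_nonneg_left h1 h2
      _ = _ := by ring
  -- the energy part
  set p := gp G1 G2 a A with hp
  set N := NL β₁ β₂ L p with hN
  set N' := NL β₁ β₂ (2 * L) p with hN'
  have hN0 : 0 ≤ N := Real.sqrt_nonneg _
  have hN'0 : 0 ≤ N' := Real.sqrt_nonneg _
  have hNN' : N' ≤ √2 * N := n2 L p hL1
  have hs2 : √2 ≤ 3 / 2 := by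
    rw [Real.sqrt_le_left (by norm_num)]; norm_num
  have hN'32 : N' ≤ 3 / 2 * N := hNN'.trans (by gcongr)
  have hcb : 8020 * N ≤ Cb * (N' - N) := by
    have hCb0 : 0 ≤ Cb := by have := hC.cb; linarith
    rcases le_total ((2 : ℝ) ^ β₁) (2 ^ β₂) with h | h
    · have h1 : (2 : ℝ) ^ β₁ * N ≤ N' := n3 L p (2 ^ β₁) hL1 (by positivity) le_rfl h
      have h2 : 8020 * N ≤ Cb * (2 ^ β₁ - 1) * N :=
        mul_le_mul_of_nonneg_right hC.cb1 hN0
      have h3 : Cb * ((2 : ℝ) ^ β₁ * N) ≤ Cb * N' := mul_le_mul_of_nonneg_left h1 hCb0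
      calc 8020 * N ≤ _ := h2
        _ = Cb * ((2 : ℝ) ^ β₁ * N) - Cb * N := by ring
        _ ≤ Cb * N' - Cb * N := by linarith
        _ = _ := by ring
    · have h1 : (2 : ℝ) ^ β₂ * N ≤ N' := n3 L p (2 ^ β₂) hL1 (by positivity) h le_rfl
      have h2 : 8020 * N ≤ Cb * (2 ^ β₂ - 1) * N :=
        mul_le_mul_of_nonneg_right hC.cb2 hN0
      have h3 : Cb * ((2 : ℝ) ^ β₂ * N) ≤ Cb * N' := mul_le_mul_of_nonneg_left h1 hCb0
      calc 8020 * N ≤ _ := h2
        _ = Cb * ((2 : ℝ) ^ β₂ * N) - Cb * N := by ring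
        _ ≤ Cb * N' - Cb * N := by linarith
        _ = _ := by ring
  obtain ⟨r1, _, _, _⟩ := hRho L hL1
  obtain ⟨r1', _, _, _⟩ := hRho (2 * L) h2L1
  have hrho := (r1 N hN0).2
  have hrho' := (r1' N' hN'0).1
  have hrho2 : 1920 / L * rho L N ≤ 4080 * N := by
    have h1 : 1920 / L * rho L N ≤ 1920 / L * ((2 * L + 2) * N) :=
      mul_le_mul_of_nonneg_left hrho (by positivity)
    have h2 : 1920 / L * ((2 * L + 2) * N) = (3840 + 3840 / L) * N := by
      field_simp; ring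
    have h3 : 3840 / L ≤ 240 := by
      rw [div_le_iff₀ hL0]; linarith
    rw [h2] at h1
    refine h1.trans ?_
    apply mul_le_mul_of_nonneg_right _ hN0
    linarith
  have hTA' : TA A p ≤ 6 * NL β₁ β₂ (2 * L) p ^ 2 := by
    have h1 := n6 (2 * L) A p h2L1 hdet
    have h2 := n7 L A hL1 hdet
    refine h1.trans ?_
    apply mul_le_mul_of_nonneg_right _ (sq_nonneg _)
    linarith
  have hTAL : TA A p ≤ 6 * NL β₁ β₂ L p ^ 2 := by
    have h1 := n6 L A p hL1 hdet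
    refine h1.trans ?_
    exact mul_le_mul_of_nonneg_right hτ (sq_nonneg _)
  have hF' := (SWI_FL β₁ β₂ (2 * L) A p hdet hTA').2
  have hF := (SWI_FL β₁ β₂ L A p hdet hTAL).1
  have hCa : 0 ≤ Ca := by have := hC.ca; have := hC.cb; linarith
  have henergy : Ca * ((1 + 1 / (2 * L)) * φ') - Cb * N' - 1920 / (2 * L) * rho (2 * L) N'
      + 40 * FL β₁ β₂ (2 * L) A p
      ≤ Ca * ((1 + 1 / L) * φ) - Cb * N - 1920 / L * rho L N + 40 * FL β₁ β₂ L A p := by
    have h1 : Ca * ((1 + 1 / (2 * L)) * φ') ≤ Ca * ((1 + 1 / L) * φ) :=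
      mul_le_mul_of_nonneg_left hΦ hCa
    have h2 : 0 ≤ 1920 / (2 * L) * rho (2 * L) N' := by positivity
    have h3 : Cb * (N' - N) = Cb * N' - Cb * N := by ring
    rw [h3] at hcb
    have h4 : 40 * FL β₁ β₂ (2 * L) A p ≤ 240 * N' := by linarith
    linarith
  unfold Bnd
  rw [← hp, ← hφ, ← hφ', ← hN, ← hN']
  have hfin := mul_le_mul_of_nonneg_left henergy hK0.le
  linarith

end Pool.UMD
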